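import Pool.Agent.R525.MDR.Star

/-!
# The girth of the minimal-domination reconfiguration graph is at most 5
-/

namespace Pool.Agent.Results.MP_fb0e57_co.GirthAtMostFive

open SimpleGraph Pool.Agent.R525.MDR

universe u

/-- For every finite graph `G`: (1) if the reconfiguration graph `R G` of the minimal dominating
sets contains a cycle then it contains a cycle of length at most 5; (2) `R G` contains a cycle
exactly when `G` has an edge and no vertex of `G` lies on all its edges. -/
theorem result (V : Type u) [Finite V] (G : SimpleGraph V) :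
    ((∃ (M : MDS G) (p : (R G).Walk M M), p.IsCycle) →
      ∃ (M : MDS G) (p : (R G).Walk M M), p.IsCycle ∧ p.length ≤ 5) ∧
    ((∃ (M : MDS G) (p : (R G).Walk M M), p.IsCycle) ↔
      (∃ a b, G.Adj a b) ∧ ∀ c, ∃ a b, G.Adj a b ∧ a ≠ c ∧ b ≠ c) := by
  have key : (∃ (M : MDS G) (p : (R G).Walk M M), p.IsCycle) → ¬ SL G := by
    rintro ⟨M, p, hp⟩ (h | ⟨c, hc⟩)
    · by_cases hV : Nonempty V
      · obtain ⟨c⟩ := hV
        exact acyclic_of_star (c := c) (fun a b hab => absurd hab (h a b)) p hp
      · have hE : ∀ A B : MDS G, A = B := by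
          intro A B
          apply Subtype.ext
          ext w
          exact absurd ⟨w⟩ hV
        have h3 := hp.three_le_length
        cases p with
        | nil => simp at h3
        | cons hadj q => exact hadj.ne (hE _ _)
    · exact acyclic_of_star hc p hp
  refine ⟨fun h => main G (key h), ?_, ?_⟩
  · intro h
    have := key h
    unfold SL at this
    push Not at this
    exact this
  · rintro ⟨⟨a, b, hab⟩, h2⟩
    have hns : ¬ SL G := by
      rintro (h | ⟨c, hc⟩)
      · exact h a b hab
      · obtain ⟨x, y, hxy, hx, hy⟩ := h2 c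
        rcases hc x y hxy with h | h
        · exact hx h
        · exact hy h
    obtain ⟨M, p, hp, _⟩ := main G hns
    exact ⟨M, p, hp⟩

end Pool.Agent.Results.MP_fb0e57_co.GirthAtMostFive
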